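import Mathlib
import Pool.Agent.helper56.SGE.Pos

/-!
# Module R3 of MP_a04002_lc: the inner faces of the first triangulation are positive
-/

set_option autoImplicit false

namespace Pool.Agent.helper81.SGE

open Pool.Agent.helper56.SGE Vx

theorem prev_some {S : Slp} {w u : ℕ} (h : S.prev w = some u) :
    u < w ∧ 2 ≤ u ∧ S.src u = S.src w ∧ S.kind u = S.kind w := by
  unfold Slp.prev at h
  have := List.mem_of_getLast? h
  simpa using this

theorem last_some {S : Slp} {i u : ℕ} {k : Bool} (h : S.last? i k = some u) :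
    u < 2 * S.N + 2 ∧ 2 ≤ u ∧ S.src u = i ∧ S.kind u = k := by
  unfold Slp.last? Slp.readers at h
  have := List.mem_of_getLast? h
  simpa using this

theorem last_reader {S : Slp} {w : ℕ} (h1 : 2 ≤ w) (h2 : w ≤ 2 * S.N + 1) :
    ∃ u, S.last? (S.src w) (S.kind w) = some u := by
  have hmem : w ∈ S.readers (S.src w) (S.kind w) := by
    unfold Slp.readers
    simp
    omega
  unfold Slp.last?
  cases h : (S.readers (S.src w) (S.kind w)).getLast? with
  | none => rw [List.getLast?_eq_none_iff] at h; rw [h] at hmem; simp at hmem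
  | some u => exact ⟨u, rfl⟩

theorem src_lt {S : Slp} (h : S.WF) {w : ℕ} (h1 : 2 ≤ w) (h2 : w ≤ 2 * S.N + 1) :
    S.src w < w / 2 := by
  unfold Slp.src
  split
  · exact h.A_lt _ (by omega) (by omega)
  · exact h.B_lt _ (by omega) (by omega)

theorem src_ok {S : Slp} (h : S.WF) {w : ℕ} (h1 : 2 ≤ w) (h2 : w ≤ 2 * S.N + 1) :
    S.OkPort (S.src w) (S.kind w) := by
  unfold Slp.src Slp.kind
  split
  · exact h.okA _ (by omega) (by omega)
  · exact h.okB _ (by omega) (by omega)

section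

variable {S : Slp} {D : Sk}

theorem top_eq (j : ℕ) (hj : 1 ≤ j) : D.top j = D.Y1 j := by
  obtain ⟨k, rfl⟩ := Nat.exists_eq_add_of_le' hj
  simp [Sk.top, Sk.Y1, Sk.Y2, Sk.Y3, Sk.Y4]

theorem right_eq (j : ℕ) (hj : 1 ≤ j) : D.right j = D.X5 j := by
  obtain ⟨k, rfl⟩ := Nat.exists_eq_add_of_le' hj
  simp only [Sk.right, Sk.X5, Sk.X4, Sk.X3, Sk.X2, Sk.X1, Nat.add_sub_cancel]

theorem right_mono (hD : Sk.Ok S D) {i j : ℕ} (hij : i ≤ j) (hj : j ≤ S.N) :
    D.right i ≤ D.right j := by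
  induction j, hij using Nat.le_induction with
  | base => exact le_rfl
  | succ j hj' ih =>
    have h1 := ih (by omega)
    have h2 := hD.uK_pos (j + 1) (by omega) hj
    have h3 := hD.uL_pos (j + 1) (by omega) hj
    simp only [Sk.right]
    linarith

theorem x2_gt (hD : Sk.Ok S D) : 1 < D.x2 := hD.c1.trans hD.c2

theorem right_gt (hD : Sk.Ok S D) {j : ℕ} (hj : j ≤ S.N) : 1 < D.right j :=
  (x2_gt hD).trans_le (right_mono hD (Nat.zero_le j) hj)

/-- the columns of a block are increasing -/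
theorem cols (hD : Sk.Ok S D) {j : ℕ} (h1 : 1 ≤ j) (h2 : j ≤ S.N) :
    D.X1 j < D.X2 j ∧ D.X2 j < D.X3 j ∧ D.X3 j < D.X4 j ∧ D.X4 j < D.X5 j := by
  have h3 := hD.uK_pos j h1 h2
  have h4 := hD.uL_pos j h1 h2
  refine ⟨?_, ?_, ?_, ?_⟩ <;> simp only [Sk.X5, Sk.X4, Sk.X3, Sk.X2] <;> linarith

theorem X1_gt (hD : Sk.Ok S D) {i j : ℕ} (h1 : i < j) (h2 : j ≤ S.N) :
    D.right i < D.X1 j := by
  have : D.right i ≤ D.right (j - 1) := right_mono hD (by omega) (by omega)
  unfold Sk.X1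
  linarith

/-- the columns of a block are larger than the columns of the previous ones -/
theorem cols_lt (hD : Sk.Ok S D) {i j : ℕ} (h0 : 1 ≤ i) (h1 : i < j) (h2 : j ≤ S.N) :
    D.X5 i < D.X1 j := by
  rw [← right_eq i h0]
  exact X1_gt hD h1 h2

/-- the rows of a block -/
theorem rows (hD : Sk.Ok S D) {j : ℕ} (h1 : 1 ≤ j) (h2 : j ≤ S.N) :
    D.Y4 j < D.Y3 j ∧ D.Y3 j < D.Y2 j ∧ D.Y2 j < D.Y1 j := by
  have h3 := hD.h1_pos j h1 h2
  have h4 := hD.h2_pos j h1 h2
  have h5 := hD.h3_pos j h1 h2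
  refine ⟨?_, ?_, ?_⟩ <;> simp only [Sk.Y1, Sk.Y2, Sk.Y3] <;> linarith

theorem hom_eq (x y : Vx → ℝ) {v : Vx} (h1 : v ≠ O) (h2 : v ≠ H) (h3 : v ≠ V) :
    hom oF x y v = (1, x v, y v) := by
  simp [hom, oF, h1, h2, h3]

theorem hom_O (x y : Vx → ℝ) : hom oF x y O = (1, 0, 0) := by simp [hom, oF]

theorem hom_V (x y : Vx → ℝ) : hom oF x y V = (0, 0, 1) := by simp [hom, oF]

/-- ordinary vertices -/
def Ord (v : Vx) : Prop := v ≠ O ∧ v ≠ H ∧ v ≠ V

theorem det_ord (x y : Vx → ℝ) {a b c : Vx} (ha : Ord a) (hb : Ord b) (hc : Ord c) :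
    det3 (hom oF x y a) (hom oF x y b) (hom oF x y c)
      = (x b - x a) * (y c - y a) - (x c - x a) * (y b - y a) := by
  rw [hom_eq x y ha.1 ha.2.1 ha.2.2, hom_eq x y hb.1 hb.2.1 hb.2.2,
    hom_eq x y hc.1 hc.2.1 hc.2.2]
  simp only [det3]
  ring

theorem det_V (x y : Vx → ℝ) {b c : Vx} (hb : Ord b) (hc : Ord c) :
    det3 (hom oF x y V) (hom oF x y b) (hom oF x y c) = x c - x b := by
  rw [hom_V, hom_eq x y hb.1 hb.2.1 hb.2.2, hom_eq x y hc.1 hc.2.1 hc.2.2]
  simp only [det3]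
  ring

theorem det_O (x y : Vx → ℝ) {a c : Vx} (ha : Ord a) (hc : Ord c) :
    det3 (hom oF x y a) (hom oF x y O) (hom oF x y c) = y a * x c - x a * y c := by
  rw [hom_O, hom_eq x y ha.1 ha.2.1 ha.2.2, hom_eq x y hc.1 hc.2.1 hc.2.2]
  simp only [det3]
  ring

theorem det_VO (x y : Vx → ℝ) {c : Vx} (hc : Ord c) :
    det3 (hom oF x y V) (hom oF x y O) (hom oF x y c) = x c := by
  rw [hom_V, hom_O, hom_eq x y hc.1 hc.2.1 hc.2.2]
  simp only [det3]
  ring

/-- second and third vertex in the same row, first vertex above -/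
theorem tri_above {x y : Vx → ℝ} {a b c : Vx} (ha : Ord a) (hb : Ord b) (hc : Ord c)
    (h1 : y b = y c) (h2 : y c < y a) (h3 : x b < x c) :
    0 < det3 (hom oF x y a) (hom oF x y b) (hom oF x y c) := by
  rw [det_ord x y ha hb hc, h1]
  nlinarith [mul_pos (sub_pos.2 h2) (sub_pos.2 h3)]

/-- first and third vertex in the same row, second vertex below -/
theorem tri_below {x y : Vx → ℝ} {a b c : Vx} (ha : Ord a) (hb : Ord b) (hc : Ord c)
    (h1 : y a = y c) (h2 : y b < y c) (h3 : x a < x c) :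
    0 < det3 (hom oF x y a) (hom oF x y b) (hom oF x y c) := by
  rw [det_ord x y ha hb hc, h1]
  nlinarith [mul_pos (sub_pos.2 h2) (sub_pos.2 h3)]


/-! ### Wires -/

theorem rM_lt_rT (hD : Sk.Ok S D) {i : ℕ} {k : Bool} (h1 : i ≤ S.N) : D.rM i k < D.rT i k := by
  unfold Sk.rM Sk.rT
  split
  · nlinarith [hD.c1, hD.c2, hD.c4]
  · have := rows hD (j := i) (by omega) h1
    split <;> linarith [this.1, this.2.1, this.2.2]

theorem rB_lt_rM (hD : Sk.Ok S D) {i : ℕ} {k : Bool} (h1 : i ≤ S.N) : D.rB i k < D.rM i k := by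
  unfold Sk.rM Sk.rB
  split
  · exact hD.c1
  · have := rows hD (j := i) (by omega) h1
    split <;> linarith [this.1, this.2.1, this.2.2]

theorem col_wr_gt (hD : Sk.Ok S D) {i w : ℕ} (h1 : i < w / 2) (h2 : w / 2 ≤ S.N) :
    D.right i < D.col S (wr w) := by
  have h3 := X1_gt hD h1 h2
  have h4 := cols hD (j := w / 2) (by omega) h2
  simp only [Sk.col]
  split <;> linarith [h4.1, h4.2.1, h4.2.2.1, h4.2.2.2]

theorem col_wm_gt (hD : Sk.Ok S D) {i w : ℕ} (h1 : i < w / 2) (h2 : w / 2 ≤ S.N) :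
    D.right i < D.col S (wm w) := by
  have h3 := X1_gt hD h1 h2
  have h4 := cols hD (j := w / 2) (by omega) h2
  simp only [Sk.col]
  split <;> linarith [h4.1, h4.2.1, h4.2.2.1, h4.2.2.2]

theorem col_wl_gt (hD : Sk.Ok S D) {i w : ℕ} (h1 : i < w / 2) (h2 : w / 2 ≤ S.N) :
    D.right i < D.col S (wl w) := by
  have h3 := X1_gt hD h1 h2
  have h4 := cols hD (j := w / 2) (by omega) h2
  simp only [Sk.col]
  split <;> linarith [h4.1, h4.2.1, h4.2.2.1, h4.2.2.2]

theorem wire_mono (hD : Sk.Ok S D) {u w : ℕ} (h0 : 2 ≤ u) (h1 : u < w) (h2 : w ≤ 2 * S.N + 1) :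
    D.col S (wr u) < D.col S (wr w) ∧ D.col S (wm u) < D.col S (wm w) ∧
      D.col S (wl u) < D.col S (wl w) := by
  by_cases h : u / 2 = w / 2
  · have e1 : u % 2 = 0 := by omega
    have e2 : ¬ w % 2 = 0 := by omega
    have h4 := cols hD (j := w / 2) (by omega) (by omega)
    simp only [Sk.col, e1, e2, if_true, if_false, h]
    exact ⟨by linarith [h4.2.2.1, h4.2.2.2], by linarith [h4.2.1, h4.2.2.1],
      by linarith [h4.1, h4.2.1]⟩
  · have h3 : u / 2 < w / 2 := by omega
    have h5 : D.right (u / 2) = D.X5 (u / 2) := right_eq _ (by omega)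
    have h4 := cols hD (j := u / 2) (by omega) (by omega)
    have a1 := col_wr_gt hD h3 (by omega)
    have a2 := col_wm_gt hD h3 (by omega)
    have a3 := col_wl_gt hD h3 (by omega)
    refine ⟨lt_of_le_of_lt ?_ a1, lt_of_le_of_lt ?_ a2, lt_of_le_of_lt ?_ a3⟩ <;>
      (rw [h5]; simp only [Sk.col]; split <;> linarith [h4.1, h4.2.1, h4.2.2.1, h4.2.2.2])

theorem ord_pv {c : ℕ → Vx} {w : ℕ} {d : Vx} (hc : ∀ u, Ord (c u)) (hd : Ord d) :
    Ord (S.pv c w d) := by
  unfold Slp.pv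
  split
  · exact hc _
  · exact hd

theorem ord_wr (u : ℕ) : Ord (wr u) := ⟨by simp, by simp, by simp⟩
theorem ord_wm (u : ℕ) : Ord (wm u) := ⟨by simp, by simp, by simp⟩
theorem ord_wl (u : ℕ) : Ord (wl u) := ⟨by simp, by simp, by simp⟩

/-- facts on the previous vertex of a row -/
theorem pv_cases {c : ℕ → Vx} {w : ℕ} {d : Vx} {P : Vx → Prop}
    (h1 : ∀ u, u < w → 2 ≤ u → S.src u = S.src w → S.kind u = S.kind w → P (c u)) (h2 : P d) :
    P (S.pv c w d) := by
  unfold Slp.pv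
  cases h : S.prev w with
  | none => exact h2
  | some u =>
    obtain ⟨a1, a2, a3, a4⟩ := prev_some h
    exact h1 u a1 a2 a3 a4

theorem R3_wr (h : S.WF) (hD : Sk.Ok S D) (w : ℕ) (h1 : 2 ≤ w) (h2 : w ≤ 2 * S.N + 1) :
    0 < det3 (hom oF (D.col S) (D.row S) (S.L1 (wr w))) (hom oF (D.col S) (D.row S) (S.R1 (wr w)))
      (hom oF (D.col S) (D.row S) (wr w)) := by
  have hs := src_lt h h1 h2
  have hok := src_ok h h1 h2
  have hN : S.src w ≤ S.N := by omega
  have hcol := col_wr_gt (S := S) (D := D) hD hs (by omega)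
  -- the left vertex is above
  have hL : Ord (S.L1 (wr w)) ∧ D.rT (S.src w) (S.kind w) < D.row S (S.L1 (wr w)) := by
    simp only [Slp.L1]
    by_cases h0 : S.src w = 0
    · rw [if_pos h0, h0]
      refine ⟨⟨by simp, by simp, by simp⟩, ?_⟩
      simp [Sk.rT, Sk.row, Sk.Y4, Sk.top]
    · rw [if_neg h0]
      by_cases hk : S.kind w = true
      · rw [if_pos hk]
        refine ⟨⟨by simp, by simp, by simp⟩, ?_⟩
        rw [Sk.rT, if_neg h0, if_pos hk]
        simp only [Sk.row, Sk.Y4, Nat.add_sub_cancel]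
        rw [top_eq _ (by omega)]
        linarith
      · rw [if_neg hk]
        refine ⟨⟨by simp, by simp, by simp⟩, ?_⟩
        rw [Sk.rT, if_neg h0, if_neg hk]
        simp only [Sk.row]
        exact (rows hD (by omega) hN).2.2
  -- the right vertex is in the same row
  have hR : Ord (S.R1 (wr w)) ∧ D.row S (S.R1 (wr w)) = D.rT (S.src w) (S.kind w) ∧
      D.col S (S.R1 (wr w)) < D.col S (wr w) := by
    simp only [Slp.R1]
    refine pv_cases (P := fun v => Ord v ∧ D.row S v = D.rT (S.src w) (S.kind w) ∧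
      D.col S v < D.col S (wr w)) ?_ ?_
    · intro u a1 a2 a3 a4
      refine ⟨ord_wr u, ?_, (wire_mono hD a2 a1 h2).1⟩
      simp only [Sk.row, a3, a4]
    · by_cases h0 : S.src w = 0
      · rw [if_pos h0]
        refine ⟨⟨by simp, by simp, by simp⟩, ?_, ?_⟩
        · simp [Sk.rT, Sk.row, h0]
        · rw [h0] at hcol
          exact hcol
      · rw [if_neg h0]
        have hc := cols hD (j := S.src w) (by omega) hN
        rw [right_eq _ (by omega)] at hcol
        by_cases hk : S.kind w = true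
        · rw [if_pos hk]
          refine ⟨⟨by simp, by simp, by simp⟩, ?_, ?_⟩
          · rw [Sk.rT, if_neg h0, if_pos hk]; rfl
          · refine lt_trans ?_ hcol
            simp only [Sk.col]
            linarith [hc.2.2.1, hc.2.2.2]
        · rw [if_neg hk]
          refine ⟨⟨by simp, by simp, by simp⟩, ?_, ?_⟩
          · rw [Sk.rT, if_neg h0, if_neg hk]; rfl
          · refine lt_of_le_of_lt ?_ hcol
            simp only [Sk.col]
            split <;> linarith [hc.1, hc.2.1, hc.2.2.1, hc.2.2.2]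
  exact tri_above hL.1 hR.1 (ord_wr w) hR.2.1 hL.2 hR.2.2

theorem R3_wm (h : S.WF) (hD : Sk.Ok S D) (w : ℕ) (h1 : 2 ≤ w) (h2 : w ≤ 2 * S.N + 1) :
    0 < det3 (hom oF (D.col S) (D.row S) (S.L1 (wm w))) (hom oF (D.col S) (D.row S) (S.R1 (wm w)))
      (hom oF (D.col S) (D.row S) (wm w)) := by
  have hs := src_lt h h1 h2
  have hok := src_ok h h1 h2
  have hN : S.src w ≤ S.N := by omega
  have hcol := col_wm_gt (S := S) (D := D) hD hs (by omega)
  have hR : Ord (S.R1 (wm w)) ∧ D.row S (S.R1 (wm w)) < D.rM (S.src w) (S.kind w) := by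
    simp only [Slp.R1]
    by_cases h0 : S.src w = 0
    · rw [if_pos h0, h0]
      refine ⟨⟨by simp, by simp, by simp⟩, ?_⟩
      simp only [Sk.rM, if_true, Sk.row]
      linarith [hD.c1]
    · rw [if_neg h0]
      have hr := rows hD (j := S.src w) (by omega) hN
      by_cases hk : S.kind w = false
      · rw [if_pos hk]
        refine ⟨⟨by simp, by simp, by simp⟩, ?_⟩
        rw [Sk.rM, if_neg h0, if_neg (by rw [hk]; simp)]
        exact hr.1
      · rw [if_neg hk]
        have hk' : S.kind w = true := by simpa using hk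
        have e1 : D.rM (S.src w) (S.kind w) = D.Y2 (S.src w) := by
          rw [Sk.rM, if_neg h0, if_pos hk']
        rw [e1]
        by_cases hf : S.ty (S.src w) = .f
        · rw [if_pos hf]
          exact ⟨⟨by simp, by simp, by simp⟩, hr.2.1⟩
        · rw [if_neg hf]
          refine ⟨⟨by simp, by simp, by simp⟩, ?_⟩
          simp only [Sk.row, if_neg hf]
          exact hr.2.1
  have hL : Ord (S.L1 (wm w)) ∧ D.row S (S.L1 (wm w)) = D.rM (S.src w) (S.kind w) ∧
      D.col S (S.L1 (wm w)) < D.col S (wm w) := by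
    simp only [Slp.L1]
    refine pv_cases (P := fun v => Ord v ∧ D.row S v = D.rM (S.src w) (S.kind w) ∧
      D.col S v < D.col S (wm w)) ?_ ?_
    · intro u a1 a2 a3 a4
      refine ⟨ord_wm u, ?_, (wire_mono hD a2 a1 h2).2.1⟩
      simp only [Sk.row, a3, a4]
    · by_cases h0 : S.src w = 0
      · rw [if_pos h0]
        refine ⟨⟨by simp, by simp, by simp⟩, ?_, ?_⟩
        · simp [Sk.rM, Sk.row, h0]
        · rw [h0] at hcol
          exact hcol
      · rw [if_neg h0]
        have hc := cols hD (j := S.src w) (by omega) hN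
        rw [right_eq _ (by omega)] at hcol
        by_cases hk : S.kind w = false
        · rw [if_pos hk]
          refine ⟨⟨by simp, by simp, by simp⟩, ?_, ?_⟩
          · rw [Sk.rM, if_neg h0, if_neg (by rw [hk]; simp)]; rfl
          · refine lt_of_le_of_lt ?_ hcol
            simp only [Sk.col]
            split <;> linarith [hc.1, hc.2.1, hc.2.2.1, hc.2.2.2]
        · rw [if_neg hk]
          have hk' : S.kind w = true := by simpa using hk
          have e1 : D.rM (S.src w) (S.kind w) = D.Y2 (S.src w) := by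
            rw [Sk.rM, if_neg h0, if_pos hk']
          rw [e1]
          by_cases hf : S.ty (S.src w) = .f
          · rw [if_pos hf]
            refine ⟨⟨by simp, by simp, by simp⟩, ?_, ?_⟩
            · simp only [Sk.row, if_pos hf]
            · refine lt_of_le_of_lt ?_ hcol
              simp only [Sk.col]
              split <;> linarith [hc.1, hc.2.1, hc.2.2.1, hc.2.2.2]
          · rw [if_neg hf]
            refine ⟨⟨by simp, by simp, by simp⟩, rfl, ?_⟩
            refine lt_of_le_of_lt ?_ hcol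
            simp only [Sk.col]
            split <;> linarith [hc.1, hc.2.1, hc.2.2.1, hc.2.2.2]
  exact tri_below hL.1 hR.1 (ord_wm w) hL.2.1 hR.2 hL.2.2

theorem R3_wl (h : S.WF) (hD : Sk.Ok S D) (w : ℕ) (h1 : 2 ≤ w) (h2 : w ≤ 2 * S.N + 1) :
    0 < det3 (hom oF (D.col S) (D.row S) (S.L1 (wl w))) (hom oF (D.col S) (D.row S) (S.R1 (wl w)))
      (hom oF (D.col S) (D.row S) (wl w)) := by
  have hs := src_lt h h1 h2
  have hok := src_ok h h1 h2
  have hN : S.src w ≤ S.N := by omega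
  have hcol := col_wl_gt (S := S) (D := D) hD hs (by omega)
  have hL : Ord (S.L1 (wl w)) ∧ D.rB (S.src w) (S.kind w) < D.row S (S.L1 (wl w)) := by
    simp only [Slp.L1]
    by_cases h0 : S.src w = 0
    · rw [if_pos h0, h0]
      refine ⟨⟨by simp, by simp, by simp⟩, ?_⟩
      simp only [Sk.rB, if_true, Sk.row]
      linarith [hD.c1]
    · rw [if_neg h0]
      obtain ⟨u, hu⟩ := last_reader h1 h2
      have hu' := last_some hu
      rw [Slp.lm, hu]
      refine ⟨ord_wm u, ?_⟩
      simp only [Sk.row, hu'.2.2.1, hu'.2.2.2]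
      exact rB_lt_rM hD hN
  have hR : Ord (S.R1 (wl w)) ∧ D.row S (S.R1 (wl w)) = D.rB (S.src w) (S.kind w) ∧
      D.col S (S.R1 (wl w)) < D.col S (wl w) := by
    simp only [Slp.R1]
    refine pv_cases (P := fun v => Ord v ∧ D.row S v = D.rB (S.src w) (S.kind w) ∧
      D.col S v < D.col S (wl w)) ?_ ?_
    · intro u a1 a2 a3 a4
      refine ⟨ord_wl u, ?_, (wire_mono hD a2 a1 h2).2.2⟩
      simp only [Sk.row, a3, a4]
    · by_cases h0 : S.src w = 0
      · rw [if_pos h0]
        refine ⟨⟨by simp, by simp, by simp⟩, ?_, ?_⟩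
        · simp [Sk.rB, Sk.row, h0]
        · rw [h0] at hcol
          exact (x2_gt hD).trans hcol
      · rw [if_neg h0]
        have hc := cols hD (j := S.src w) (by omega) hN
        rw [right_eq _ (by omega)] at hcol
        by_cases hk : S.kind w = false
        · rw [if_pos hk]
          refine ⟨⟨by simp, by simp, by simp⟩, ?_, ?_⟩
          · rw [Sk.rB, if_neg h0, if_neg (by rw [hk]; simp)]; rfl
          · exact hcol
        · rw [if_neg hk]
          have hk' : S.kind w = true := by simpa using hk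
          have e1 : D.rB (S.src w) (S.kind w) = D.Y3 (S.src w) := by
            rw [Sk.rB, if_neg h0, if_pos hk']
          rw [e1]
          by_cases hf : S.ty (S.src w) = .f
          · rw [if_pos hf]
            refine ⟨⟨by simp, by simp, by simp⟩, rfl, ?_⟩
            refine lt_of_le_of_lt ?_ hcol
            simp only [Sk.col]
            split <;> linarith [hc.1, hc.2.1, hc.2.2.1, hc.2.2.2]
          · rw [if_neg hf]
            refine ⟨⟨by simp, by simp, by simp⟩, ?_, ?_⟩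
            · simp only [Sk.row, if_neg hf]
            · refine lt_of_le_of_lt ?_ hcol
              simp only [Sk.col]
              split <;> linarith [hc.1, hc.2.1, hc.2.2.1, hc.2.2.2]
  exact tri_above hL.1 hR.1 (ord_wl w) hR.2.1 hL.2 hR.2.2


/-! ### Blocks -/

theorem ord_dec {v : Vx} (h1 : v ≠ O) (h2 : v ≠ H) (h3 : v ≠ V) : Ord v := ⟨h1, h2, h3⟩


theorem R3_p1 (hD : Sk.Ok S D) (j : ℕ) (h1 : 1 ≤ j) (h2 : j ≤ S.N) :
    0 < det3 (hom oF (D.col S) (D.row S) (S.L1 (p1 j))) (hom oF (D.col S) (D.row S) (S.R1 (p1 j)))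
      (hom oF (D.col S) (D.row S) (p1 j)) := by
  have hc := cols hD h1 h2
  simp only [Slp.L1, Slp.R1]
  rw [det_V _ _ (⟨by simp, by simp, by simp⟩) (⟨by simp, by simp, by simp⟩)]
  simp only [Sk.col]
  linarith [hc.1, hc.2.1]

theorem R3_r4 (hD : Sk.Ok S D) (j : ℕ) (h1 : 1 ≤ j) (h2 : j ≤ S.N) :
    0 < det3 (hom oF (D.col S) (D.row S) (S.L1 (r4 j))) (hom oF (D.col S) (D.row S) (S.R1 (r4 j)))
      (hom oF (D.col S) (D.row S) (r4 j)) := by
  have hc := cols hD h1 h2
  simp only [Slp.L1, Slp.R1]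
  by_cases hj : j = 1
  · rw [if_pos hj, det_V _ _ (⟨by simp, by simp, by simp⟩) (⟨by simp, by simp, by simp⟩)]
    subst hj
    simp [Sk.col, Sk.X1, Sk.right]
  · rw [if_neg hj, det_V _ _ (⟨by simp, by simp, by simp⟩) (⟨by simp, by simp, by simp⟩)]
    have hc' := cols hD (j := j - 1) (by omega) (by omega)
    have := cols_lt hD (i := j - 1) (j := j) (by omega) (by omega) h2
    simp only [Sk.col]
    linarith [hc'.2.2.1, hc'.2.2.2]

theorem R3_q2 (hD : Sk.Ok S D) (j : ℕ) (h1 : 1 ≤ j) (h2 : j ≤ S.N) :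
    0 < det3 (hom oF (D.col S) (D.row S) (S.L1 (q2 j))) (hom oF (D.col S) (D.row S) (S.R1 (q2 j)))
      (hom oF (D.col S) (D.row S) (q2 j)) := by
  simp only [Slp.L1, Slp.R1]
  have a1 := hD.h1_pos j h1 h2
  have a2 := hD.h2_pos j h1 h2
  have a3 := hD.uL_pos j h1 h2
  cases ht : S.ty j with
  | g =>
    have hg := hD.g j h1 h2 ht
    rw [if_neg (by simp), det_ord _ _ (⟨by simp, by simp, by simp⟩) (⟨by simp, by simp, by simp⟩) (⟨by simp, by simp, by simp⟩)]
    simp only [Sk.col, Sk.row, ht, Sk.Y1, Sk.Y2, Sk.X5, Sk.X4]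
    rw [if_neg (by simp)]
    nlinarith
  | s =>
    rw [if_neg (by simp), det_ord _ _ (⟨by simp, by simp, by simp⟩) (⟨by simp, by simp, by simp⟩) (⟨by simp, by simp, by simp⟩)]
    simp only [Sk.col, Sk.row, ht, Sk.Y1, Sk.Y2, Sk.X5, Sk.X4]
    rw [if_neg (by simp)]
    nlinarith [mul_pos a3 a1, mul_pos a3 a2]
  | f =>
    have hf := hD.f1 j h1 h2 ht
    rw [if_pos rfl, det_ord _ _ (⟨by simp, by simp, by simp⟩) (⟨by simp, by simp, by simp⟩) (⟨by simp, by simp, by simp⟩)]
    simp only [Sk.col, Sk.row, ht, Sk.Y1, Sk.Y2, Sk.Y3, Sk.X3, Sk.X2]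
    nlinarith

theorem R3_X (hD : Sk.Ok S D) (j : ℕ) (h1 : 1 ≤ j) (h2 : j ≤ S.N) :
    0 < det3 (hom oF (D.col S) (D.row S) (S.L1 (X j))) (hom oF (D.col S) (D.row S) (S.R1 (X j)))
      (hom oF (D.col S) (D.row S) (X j)) := by
  simp only [Slp.L1, Slp.R1]
  have hc := cols hD h1 h2
  have hr := rows hD h1 h2
  cases ht : S.ty j with
  | g =>
    rw [if_neg (by simp), if_neg (by simp)]
    refine tri_above (⟨by simp, by simp, by simp⟩) (⟨by simp, by simp, by simp⟩) (⟨by simp, by simp, by simp⟩) ?_ ?_ ?_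
    · simp [Sk.row, ht]
    · simp only [Sk.row, ht]; rw [if_neg (by simp)]; linarith [hr.2.1, hr.2.2]
    · simp only [Sk.col, ht]; linarith [hc.2.1, hc.2.2.1, hc.2.2.2]
  | s =>
    rw [if_neg (by simp), if_neg (by simp)]
    refine tri_above (⟨by simp, by simp, by simp⟩) (⟨by simp, by simp, by simp⟩) (⟨by simp, by simp, by simp⟩) ?_ ?_ ?_
    · simp [Sk.row, ht]
    · simp only [Sk.row, ht]; rw [if_neg (by simp)]; linarith [hr.2.1, hr.2.2]
    · simp only [Sk.col, ht]; linarith [hc.2.1, hc.2.2.1, hc.2.2.2]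
  | f =>
    rw [if_pos rfl, if_pos rfl]
    refine tri_below (⟨by simp, by simp, by simp⟩) (⟨by simp, by simp, by simp⟩) (⟨by simp, by simp, by simp⟩) ?_ ?_ ?_
    · simp [Sk.row, ht]
    · simp only [Sk.row, ht, if_true]; linarith [hr.1, hr.2.1]
    · simp only [Sk.col, ht]; linarith [hc.2.1, hc.2.2.1, hc.2.2.2]

theorem R3_q3 (hD : Sk.Ok S D) (j : ℕ) (h1 : 1 ≤ j) (h2 : j ≤ S.N) :
    0 < det3 (hom oF (D.col S) (D.row S) (S.L1 (q3 j))) (hom oF (D.col S) (D.row S) (S.R1 (q3 j)))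
      (hom oF (D.col S) (D.row S) (q3 j)) := by
  simp only [Slp.L1, Slp.R1]
  cases ht : S.ty j with
  | g =>
    have hg := hD.gs j h1 h2 (by rw [ht]; simp)
    rw [if_neg (by simp), if_neg (by simp), det_ord _ _ (⟨by simp, by simp, by simp⟩) (⟨by simp, by simp, by simp⟩) (⟨by simp, by simp, by simp⟩)]
    simp only [Sk.col, Sk.row, ht, Sk.Y1, Sk.Y2, Sk.Y3, Sk.X3, Sk.X2]
    nlinarith
  | s =>
    have hg := hD.gs j h1 h2 (by rw [ht]; simp)
    rw [if_neg (by simp), if_neg (by simp), det_ord _ _ (⟨by simp, by simp, by simp⟩) (⟨by simp, by simp, by simp⟩) (⟨by simp, by simp, by simp⟩)]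
    simp only [Sk.col, Sk.row, ht, Sk.Y1, Sk.Y2, Sk.Y3, Sk.X3, Sk.X2]
    nlinarith
  | f =>
    have hf := hD.f2 j h1 h2 ht
    rw [if_pos rfl, if_pos rfl, det_ord _ _ (⟨by simp, by simp, by simp⟩) (⟨by simp, by simp, by simp⟩) (⟨by simp, by simp, by simp⟩)]
    simp only [Sk.col, Sk.row, ht, Sk.Y2, Sk.Y3, Sk.X5, Sk.X4, if_true]
    nlinarith

theorem R3_Y (hD : Sk.Ok S D) (j : ℕ) (h1 : 1 ≤ j) (h2 : j ≤ S.N) :
    0 < det3 (hom oF (D.col S) (D.row S) (S.L1 (Y j))) (hom oF (D.col S) (D.row S) (S.R1 (Y j)))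
      (hom oF (D.col S) (D.row S) (Y j)) := by
  simp only [Slp.L1, Slp.R1]
  have hc := cols hD h1 h2
  have hr := rows hD h1 h2
  have key : ∀ v, Ord v → D.Y4 j < D.row S v →
      0 < det3 (hom oF (D.col S) (D.row S) v) (hom oF (D.col S) (D.row S) (r4 j))
      (hom oF (D.col S) (D.row S) (Y j)) := by
    intro v hv hv'
    refine tri_above hv (⟨by simp, by simp, by simp⟩) (⟨by simp, by simp, by simp⟩) rfl hv' ?_
    simp only [Sk.col]
    linarith [hc.1, hc.2.1, hc.2.2.1, hc.2.2.2]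
  split
  · refine key _ (⟨by simp, by simp, by simp⟩) ?_
    simp only [Sk.row]
    linarith [hr.1, hr.2.1]
  · unfold Slp.lm
    cases h : S.last? j false with
    | none => exact key _ (⟨by simp, by simp, by simp⟩) hr.1
    | some u =>
      have hu := last_some h
      refine key _ (ord_wm u) ?_
      simp only [Sk.row, hu.2.2.1, hu.2.2.2, Sk.rM]
      rw [if_neg (by omega), if_neg (by simp)]
      exact hr.1

theorem X3_gt (hD : Sk.Ok S D) {j : ℕ} (h1 : 1 ≤ j) (h2 : j ≤ S.N) : 1 < D.X3 j := by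
  have hc := cols hD h1 h2
  have := X1_gt hD (i := 0) (j := j) (by omega) h2
  have h3 := right_gt hD (j := 0) (by omega)
  linarith [hc.1, hc.2.1]

theorem R3_a5 (hD : Sk.Ok S D) (j : ℕ) (h1 : 1 ≤ j) (h2 : j ≤ S.N) :
    0 < det3 (hom oF (D.col S) (D.row S) (S.L1 (a5 j))) (hom oF (D.col S) (D.row S) (S.R1 (a5 j)))
      (hom oF (D.col S) (D.row S) (a5 j)) := by
  simp only [Slp.L1, Slp.R1]
  have hc := cols hD h1 h2
  refine tri_above (⟨by simp, by simp, by simp⟩) (⟨by simp, by simp, by simp⟩) (⟨by simp, by simp, by simp⟩) rfl ?_ ?_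
  · simp only [Sk.row]; norm_num
  · simp only [Sk.col]; linarith [hc.2.2.1, hc.2.2.2]

theorem R3_a3 (hD : Sk.Ok S D) (j : ℕ) (h1 : 1 ≤ j) (h2 : j ≤ S.N) :
    0 < det3 (hom oF (D.col S) (D.row S) (S.L1 (a3 j))) (hom oF (D.col S) (D.row S) (S.R1 (a3 j)))
      (hom oF (D.col S) (D.row S) (a3 j)) := by
  simp only [Slp.L1, Slp.R1]
  have hc := cols hD h1 h2
  by_cases hj : j = 1
  · rw [if_pos hj, det_O _ _ (⟨by simp, by simp, by simp⟩) (⟨by simp, by simp, by simp⟩)]
    simp only [Sk.col, Sk.row]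
    linarith [X3_gt hD h1 h2]
  · rw [if_neg hj]
    refine tri_above (⟨by simp, by simp, by simp⟩) (⟨by simp, by simp, by simp⟩) (⟨by simp, by simp, by simp⟩) rfl ?_ ?_
    · simp only [Sk.row]; norm_num
    · have := cols_lt hD (i := j - 1) (j := j) (by omega) (by omega) h2
      simp only [Sk.col]; linarith [hc.1, hc.2.1]

/-! ### Special vertices -/

theorem R3_special (h : S.WF) (hD : Sk.Ok S D) : ∀ m ∈ [p0, q0, q0p, s0, r0, A1, A2, B1, B2, M, J,
      n, anc],
    0 < det3 (hom oF (D.col S) (D.row S) (S.L1 m)) (hom oF (D.col S) (D.row S) (S.R1 m))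
      (hom oF (D.col S) (D.row S) m) := by
  have hc := cols hD h.one_le le_rfl
  have hr := rows hD h.one_le le_rfl
  have e := right_eq (D := D) S.N h.one_le
  have hx3 := X3_gt hD h.one_le le_rfl
  have hx2 := x2_gt hD
  have hg := h.last
  have c1 := hD.c1
  have c2 := hD.c2
  have c3 := hD.c3
  have c4 := hD.c4
  have j1 := hD.j1
  have j2 := hD.j2
  have j3 := hD.j3
  have j4 := hD.j4
  have j5 := hD.j5
  have j6 := hD.j6
  have j7 := hD.j7
  have j8 := hD.j8
  have hh3 := hD.h3_pos S.N h.one_le le_rfl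
  intro m hm
  simp only [List.mem_cons, List.not_mem_nil, or_false] at hm
  rcases hm with rfl | rfl | rfl | rfl | rfl | rfl | rfl | rfl | rfl | rfl | rfl | rfl | rfl
  · -- p0
    simp only [Slp.L1, Slp.R1]
    rw [det_VO _ _ (⟨by simp, by simp, by simp⟩)]
    simp only [Sk.col]
    linarith
  · -- q0
    simp only [Slp.L1, Slp.R1]
    rw [det_O _ _ (⟨by simp, by simp, by simp⟩) (⟨by simp, by simp, by simp⟩)]
    simp only [Sk.col, Sk.row]
    linarith
  · -- q0p
    simp only [Slp.L1, Slp.R1]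
    refine tri_below (⟨by simp, by simp, by simp⟩) (⟨by simp, by simp, by simp⟩) (⟨by simp, by simp, by simp⟩) rfl ?_ ?_
    · simp only [Sk.row]; linarith
    · simp only [Sk.col]; linarith
  · -- s0
    simp only [Slp.L1, Slp.R1]
    rw [det_O _ _ (⟨by simp, by simp, by simp⟩) (⟨by simp, by simp, by simp⟩)]
    simp only [Sk.col, Sk.row]
    nlinarith [mul_pos (sub_pos.2 c1) (sub_pos.2 hx2)]
  · -- r0
    simp only [Slp.L1, Slp.R1]
    rw [det_O _ _ (⟨by simp, by simp, by simp⟩) (⟨by simp, by simp, by simp⟩)]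
    simp only [Sk.col, Sk.row]
    linarith
  · -- A1
    simp only [Slp.L1, Slp.R1]
    refine tri_above (⟨by simp, by simp, by simp⟩) (⟨by simp, by simp, by simp⟩) (⟨by simp, by simp, by simp⟩) rfl ?_ ?_
    · simp only [Sk.row]; linarith [hr.2.2]
    · simp only [Sk.col, hg]; linarith [hc.2.2.2]
  · -- A2
    simp only [Slp.L1, Slp.R1]
    refine tri_above (⟨by simp, by simp, by simp⟩) (⟨by simp, by simp, by simp⟩) (⟨by simp, by simp, by simp⟩) rfl ?_ ?_
    · simp only [Sk.row]; linarith [hr.2.2]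
    · simp only [Sk.col]; linarith
  · -- B1
    simp only [Slp.L1, Slp.R1]
    refine tri_above (⟨by simp, by simp, by simp⟩) (⟨by simp, by simp, by simp⟩) (⟨by simp, by simp, by simp⟩) rfl ?_ ?_
    · simp only [Sk.row]; linarith [hr.1]
    · simp only [Sk.col]; linarith
  · -- B2
    simp only [Slp.L1, Slp.R1]
    refine tri_above (⟨by simp, by simp, by simp⟩) (⟨by simp, by simp, by simp⟩) (⟨by simp, by simp, by simp⟩) rfl ?_ ?_
    · simp only [Sk.row]; linarith [hr.1]
    · simp only [Sk.col]; linarith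
  · -- M
    simp only [Slp.L1, Slp.R1]
    refine tri_below (⟨by simp, by simp, by simp⟩) (⟨by simp, by simp, by simp⟩) (⟨by simp, by simp, by simp⟩) rfl ?_ ?_
    · simp only [Sk.row, Sk.Y3]; linarith
    · simp only [Sk.col, hg]; linarith [hc.1, hc.2.1, hc.2.2.1, hc.2.2.2]
  · -- J
    simp only [Slp.L1, Slp.R1]
    rw [det_ord _ _ (⟨by simp, by simp, by simp⟩) (⟨by simp, by simp, by simp⟩) (⟨by simp, by simp, by simp⟩)]
    have ha : 0 < D.right S.N + 1 - D.X2 S.N := by
      rw [e]; linarith [hc.1, hc.2.1, hc.2.2.1, hc.2.2.2]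
    simp only [Sk.col, Sk.row, hg, Sk.Y3]
    nlinarith [mul_pos ha (j4.trans j5)]
  · -- n
    simp only [Slp.L1, Slp.R1]
    rw [det_ord _ _ (⟨by simp, by simp, by simp⟩) (⟨by simp, by simp, by simp⟩) (⟨by simp, by simp, by simp⟩)]
    simp only [Sk.col, Sk.row]
    nlinarith
  · -- anc
    simp only [Slp.L1, Slp.R1]
    refine tri_above (⟨by simp, by simp, by simp⟩) (⟨by simp, by simp, by simp⟩) (⟨by simp, by simp, by simp⟩) rfl ?_ ?_
    · simp only [Sk.row]; norm_num
    · simp only [Sk.col]; linarith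

/-- module R3, for every vertex that exists -/
theorem R3_valid (S : Slp) (h : S.WF) (D : Sk) (hD : Sk.Ok S D) (m : Vx) (hm : S.Valid m)
    (h1 : m ≠ O) (h2 : m ≠ H) (h3 : m ≠ V) :
    0 < det3 (hom oF (D.col S) (D.row S) (S.L1 m)) (hom oF (D.col S) (D.row S) (S.R1 m))
      (hom oF (D.col S) (D.row S) m) := by
  have hsp := R3_special h hD
  cases m with
  | O => exact absurd rfl h1
  | H => exact absurd rfl h2
  | V => exact absurd rfl h3
  | p0 => exact hsp _ (by simp)
  | q0 => exact hsp _ (by simp)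
  | q0p => exact hsp _ (by simp)
  | s0 => exact hsp _ (by simp)
  | r0 => exact hsp _ (by simp)
  | A1 => exact hsp _ (by simp)
  | A2 => exact hsp _ (by simp)
  | B1 => exact hsp _ (by simp)
  | B2 => exact hsp _ (by simp)
  | M => exact hsp _ (by simp)
  | J => exact hsp _ (by simp)
  | n => exact hsp _ (by simp)
  | anc => exact hsp _ (by simp)
  | p1 j => exact R3_p1 hD j hm.1 hm.2
  | q2 j => exact R3_q2 hD j hm.1 hm.2
  | X j => exact R3_X hD j hm.1 hm.2
  | q3 j => exact R3_q3 hD j hm.1 hm.2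
  | r4 j => exact R3_r4 hD j hm.1 hm.2
  | Y j => exact R3_Y hD j hm.1 hm.2
  | a5 j => exact R3_a5 hD j hm.1 hm.2
  | a3 j => exact R3_a3 hD j hm.1 hm.2
  | wr w => exact R3_wr h hD w hm.1 hm.2
  | wm w => exact R3_wm h hD w hm.1 hm.2
  | wl w => exact R3_wl h hD w hm.1 hm.2

/-! ### Membership in `path1` -/

theorem readers_valid {i : ℕ} {k : Bool} {w : ℕ} (h : w ∈ S.readers i k) :
    2 ≤ w ∧ w ≤ 2 * S.N + 1 := by
  unfold Slp.readers at h
  simp only [List.mem_filter, List.mem_range, decide_eq_true_eq] at h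
  omega

theorem mem_wires {c : ℕ → Vx} {i : ℕ} {k : Bool} {v : Vx}
    (h : v ∈ (S.readers i k).map c ∨ v ∈ (S.readers i k).reverse.map c) :
    ∃ w, 2 ≤ w ∧ w ≤ 2 * S.N + 1 ∧ v = c w := by
  rw [List.map_reverse, List.mem_reverse, or_self, List.mem_map] at h
  obtain ⟨w, hw, rfl⟩ := h
  exact ⟨w, (readers_valid hw).1, (readers_valid hw).2, rfl⟩

/-- valid inner vertices -/
def VI (S : Slp) (v : Vx) : Prop := S.Valid v ∧ v ≠ O ∧ v ≠ H ∧ v ≠ V

theorem VI_wr {w : ℕ} (h1 : 2 ≤ w) (h2 : w ≤ 2 * S.N + 1) : VI S (wr w) :=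
  ⟨⟨h1, h2⟩, by simp, by simp, by simp⟩
theorem VI_wm {w : ℕ} (h1 : 2 ≤ w) (h2 : w ≤ 2 * S.N + 1) : VI S (wm w) :=
  ⟨⟨h1, h2⟩, by simp, by simp, by simp⟩
theorem VI_wl {w : ℕ} (h1 : 2 ≤ w) (h2 : w ≤ 2 * S.N + 1) : VI S (wl w) :=
  ⟨⟨h1, h2⟩, by simp, by simp, by simp⟩

theorem VI_rd {i : ℕ} {k : Bool} {v : Vx} (h : v ∈ (S.readers i k).map wr ∨
    v ∈ (S.readers i k).map wm ∨ v ∈ (S.readers i k).map wl) : VI S v := by
  simp only [List.mem_map] at h
  rcases h with ⟨w, hw, rfl⟩ | ⟨w, hw, rfl⟩ | ⟨w, hw, rfl⟩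
  · exact VI_wr (readers_valid hw).1 (readers_valid hw).2
  · exact VI_wm (readers_valid hw).1 (readers_valid hw).2
  · exact VI_wl (readers_valid hw).1 (readers_valid hw).2

theorem VI_blk1 {i : ℕ} (h1 : 1 ≤ i) (h2 : i ≤ S.N) {v : Vx} (h : v ∈ S.blk1 i) : VI S v := by
  unfold Slp.blk1 at h
  split at h
  · simp only [List.mem_cons, List.not_mem_nil, or_false] at h
    rcases h with rfl | rfl | rfl | rfl | rfl | rfl | rfl | rfl | rfl | rfl | rfl | rfl | rfl <;>
      exact ⟨by first | exact ⟨h1, h2⟩ | trivial, by simp, by simp, by simp⟩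
  · split at h
    · simp only [List.mem_append, List.map_reverse, List.mem_reverse, List.mem_cons,
        List.not_mem_nil, or_false] at h
      rcases h with ((((h | h | h | h) | h) | h) | h | h | h)
      · exact VI_rd (Or.inl h)
      · subst h; exact ⟨⟨h1, h2⟩, by simp, by simp, by simp⟩
      · subst h; exact ⟨⟨h1, h2⟩, by simp, by simp, by simp⟩
      · subst h; exact ⟨⟨h1, h2⟩, by simp, by simp, by simp⟩
      · exact VI_rd (Or.inr (Or.inl h))
      · exact VI_rd (Or.inr (Or.inr h))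
      · subst h; exact ⟨⟨h1, h2⟩, by simp, by simp, by simp⟩
      · subst h; exact ⟨⟨h1, h2⟩, by simp, by simp, by simp⟩
      · subst h; exact ⟨⟨h1, h2⟩, by simp, by simp, by simp⟩
    · simp only [List.mem_append, List.map_reverse, List.mem_reverse, List.mem_cons,
        List.not_mem_nil, or_false] at h
      rcases h with (((((((((h | h) | h) | h) | h) | h) | h | h) | h) | h) | h | h)
      · exact VI_rd (Or.inl h)
      · subst h; exact ⟨⟨h1, h2⟩, by simp, by simp, by simp⟩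
      · exact VI_rd (Or.inl h)
      · subst h; exact ⟨⟨h1, h2⟩, by simp, by simp, by simp⟩
      · exact VI_rd (Or.inr (Or.inl h))
      · exact VI_rd (Or.inr (Or.inr h))
      · subst h; exact ⟨⟨h1, h2⟩, by simp, by simp, by simp⟩
      · subst h; exact ⟨⟨h1, h2⟩, by simp, by simp, by simp⟩
      · exact VI_rd (Or.inr (Or.inl h))
      · exact VI_rd (Or.inr (Or.inr h))
      · subst h; exact ⟨⟨h1, h2⟩, by simp, by simp, by simp⟩
      · subst h; exact ⟨⟨h1, h2⟩, by simp, by simp, by simp⟩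

theorem VI_blks1 {i : ℕ} (h2 : i ≤ S.N) {v : Vx} (h : v ∈ S.blks1 i) : VI S v := by
  induction i with
  | zero =>
    rw [Slp.blks1, List.map_reverse, List.mem_reverse] at h
    exact VI_rd (Or.inl h)
  | succ i ih =>
    rw [Slp.blks1, List.mem_append] at h
    rcases h with h | h
    · exact VI_blk1 (by omega) h2 h
    · exact ih (by omega) h

theorem VI_con1 {v : Vx} (h : v ∈ S.con1) : VI S v := by
  unfold Slp.con1 at h
  simp only [List.mem_append, List.map_reverse, List.mem_reverse, List.mem_cons,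
    List.not_mem_nil, or_false] at h
  rcases h with (((((h | h | h) | h) | h) | h) | h | h)
  · subst h; exact ⟨trivial, by simp, by simp, by simp⟩
  · subst h; exact ⟨trivial, by simp, by simp, by simp⟩
  · subst h; exact ⟨trivial, by simp, by simp, by simp⟩
  · exact VI_rd (Or.inr (Or.inl h))
  · subst h; exact ⟨trivial, by simp, by simp, by simp⟩
  · exact VI_rd (Or.inr (Or.inr h))
  · subst h; exact ⟨trivial, by simp, by simp, by simp⟩
  · subst h; exact ⟨trivial, by simp, by simp, by simp⟩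

theorem VI_anch {i : ℕ} (h2 : i ≤ S.N) {v : Vx} (h : v ∈ Slp.anch i) : VI S v := by
  induction i with
  | zero => simp [Slp.anch] at h
  | succ i ih =>
    rw [Slp.anch] at h
    simp only [List.mem_append, List.mem_cons, List.not_mem_nil, or_false] at h
    rcases h with (h | h) | h
    · subst h; exact ⟨⟨by omega, h2⟩, by simp, by simp, by simp⟩
    · subst h; exact ⟨⟨by omega, h2⟩, by simp, by simp, by simp⟩
    · exact ih (by omega) h

theorem VI_path1 {v : Vx} (h : v ∈ S.path1) : VI S v := by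
  unfold Slp.path1 at h
  rw [List.mem_append, List.mem_append] at h
  rcases h with (h | h) | h
  · exact VI_blks1 le_rfl h
  · exact VI_con1 h
  · exact VI_anch le_rfl h

/-- module R3: inner faces of the first triangulation -/
theorem R3 (S : Slp) (h : S.WF) (D : Sk) (hD : Sk.Ok S D) : ∀ m ∈ S.path1,
    0 < det3 (hom oF (D.col S) (D.row S) (S.L1 m)) (hom oF (D.col S) (D.row S) (S.R1 m))
      (hom oF (D.col S) (D.row S) m) := by
  intro m hm
  have hv := VI_path1 hm
  exact R3_valid S h D hD m hv.1 hv.2.1 hv.2.2.1 hv.2.2.2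

end

end Pool.Agent.helper81.SGE
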